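import Pool.Agent.Helper99.CT.Defs

/-! Project CT, packet WSY. -/

set_option autoImplicit false

namespace Pool.Agent.Helper23.CT

open Pool.Agent.Helper99.CT

/-- A group of the order of a Sylow subgroup that embeds into a finite group contains every
`2`-group that embeds into that group. -/
theorem embeds_of_card {H B G : Type} [Group H] [Finite H] [Group B] [Group G]
    (F : B →* H) (hF : Function.Injective F)
    (hB : Nat.card B = 2 ^ (Nat.card H).factorization 2) (hG : IsPGroup 2 G) (g : G →* H)
    (hg : Function.Injective g) : Embeds G B := by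
  haveI : Fact (Nat.Prime 2) := ⟨Nat.prime_two⟩
  have hcard : Nat.card F.range = 2 ^ (Nat.card H).factorization 2 := by
    rw [← hB]
    exact (Nat.card_congr (MonoidHom.ofInjective hF).toEquiv).symm
  let P : Sylow 2 H := Sylow.ofCard F.range hcard
  have hP : (P : Subgroup H) = F.range := rfl
  have hgr : IsPGroup 2 g.range := hG.of_surjective g.rangeRestrict g.rangeRestrict_surjective
  obtain ⟨Q, hQ⟩ := hgr.exists_le_sylow
  obtain ⟨x, hx⟩ := MulAction.exists_smul_eq H Q P
  have hmem : ∀ a : G, x * g a * x⁻¹ ∈ F.range := by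
    intro a
    have h1 : g a ∈ (Q : Subgroup H) := hQ ⟨a, rfl⟩
    have h2 : x * g a * x⁻¹ ∈ ((x • Q : Sylow 2 H) : Subgroup H) := by
      rw [Sylow.coe_subgroup_smul]
      exact ⟨g a, h1, rfl⟩
    rw [hx] at h2
    exact h2
  let k : G →* F.range := ((MulAut.conj x).toMonoidHom.comp g).codRestrict F.range hmem
  have hk : Function.Injective k := by
    intro a b hab
    have h1 : x * g a * x⁻¹ = x * g b * x⁻¹ := congrArg Subtype.val hab
    exact hg (mul_left_cancel (mul_right_cancel h1))
  exact ⟨(MonoidHom.ofInjective hF).symm.toMonoidHom.comp k,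
    (MonoidHom.ofInjective hF).symm.injective.comp hk⟩

theorem nu_two : nu 2 = 1 := by
  rw [nu_half]
  norm_num [nu]

theorem nu_six : nu 6 = 4 := by
  rw [nu_half]
  have : nu 3 = 1 := by
    rw [nu_half]
    norm_num [nu]
  norm_num [this]

theorem ex_rep (l₀ : List ℕ) (h : ex 1 l₀ = nu (2 * l₀.prod)) (a : ℕ) :
    ex 1 (List.replicate a 2 ++ l₀) = nu (2 * (List.replicate a 2 ++ l₀).prod) := by
  induction a with
  | zero => simpa using h
  | succ a ih =>
    rw [List.replicate_succ, List.cons_append, ex_cons, List.prod_cons, ih, nu_two_mul (2 * _)]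

theorem wsyl (hW : GoalWPerm) : GoalWSyl := by
  intro n hn ⟨a, ha⟩
  obtain ⟨l, hl, hprod, hex⟩ : ∃ l : List ℕ, (∀ r ∈ l, 2 ≤ r) ∧ l.prod = n / 2 ∧
      ex 1 l = nu (2 * l.prod) := by
    rcases ha with ha | ha
    · refine ⟨List.replicate a 2 ++ [], ?_, ?_, ex_rep [] ?_ a⟩
      · intro r hr
        simp only [List.append_nil, List.mem_replicate] at hr
        omega
      · simp [ha]
      · simp only [List.prod_nil, mul_one, nu_two]
        rfl
    · refine ⟨List.replicate a 2 ++ [3], ?_, ?_, ex_rep [3] ?_ a⟩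
      · intro r hr
        simp only [List.mem_append, List.mem_replicate, List.mem_singleton] at hr
        omega
      · simp [ha]; ring
      · simp only [List.prod_singleton]
        rw [show 2 * 3 = 6 by norm_num, nu_six]
        rfl
  have hle : 2 * l.prod ≤ n := by rw [hprod]; omega
  refine ⟨l, hl, hle, ?_⟩
  intro G _ _ hG ⟨g, hg⟩
  obtain ⟨-, -, F, hF⟩ := hW n l hl hle
  refine embeds_of_card F hF ?_ hG g hg
  rw [(card_W l).2, hex, hprod]
  congr 1
  rw [Nat.card_eq_fintype_card, Fintype.card_perm, Fintype.card_fin,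
    Nat.factorization_def _ Nat.prime_two, nu_two_mul, ← nu_half]
  rfl

end Pool.Agent.Helper23.CT
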